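import Pool.Agent.Helper92.Ru.GoalsV

/-! Packet HtHyp (P13) of MP_d1d051_nt: heights of hyperplanes over the extensions `L`. -/

set_option autoImplicit false

open NumberField

namespace Pool.Agent.Helper97.Ru

open Pool.Agent.Helper92.Ru

/-- summing a bounded function over a finite set along a map with small fibres -/
theorem sum_le_of_fibres {α β : Type} [DecidableEq β] (s : Finset α) (t : Finset β) (p : α → β)
    (f : α → ℝ) (g : β → ℝ) (d : ℕ) (hg : ∀ b, 0 ≤ g b) (hgt : ∀ b, b ∉ t → g b = 0)
    (hf : ∀ a ∈ s, f a ≤ g (p a)) (hc : ∀ b, (s.filter (fun a => p a = b)).card ≤ d) :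
    ∑ a ∈ s, f a ≤ ∑ b ∈ t, (d : ℝ) * g b := by
  classical
  calc ∑ a ∈ s, f a ≤ ∑ a ∈ s, g (p a) := Finset.sum_le_sum hf
    _ = ∑ a ∈ s.filter (fun a => p a ∈ t), g (p a) := by
        symm
        apply Finset.sum_subset (Finset.filter_subset _ _)
        intro a ha hna
        apply hgt
        intro hmem
        exact hna (Finset.mem_filter.2 ⟨ha, hmem⟩)
    _ = ∑ b ∈ t, ∑ a ∈ (s.filter (fun a => p a ∈ t)).filter (fun a => p a = b), g (p a) := by
        symm
        apply Finset.sum_fiberwise_of_maps_to
        intro a ha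
        exact (Finset.mem_filter.1 ha).2
    _ ≤ ∑ b ∈ t, (d : ℝ) * g b := by
        apply Finset.sum_le_sum
        intro b _
        have h1 : ∀ a ∈ (s.filter (fun a => p a ∈ t)).filter (fun a => p a = b),
            g (p a) = g b := by
          intro a ha
          rw [(Finset.mem_filter.1 ha).2]
        rw [Finset.sum_congr rfl h1, Finset.sum_const, nsmul_eq_mul]
        apply mul_le_mul_of_nonneg_right _ (hg b)
        have h2 : ((s.filter (fun a => p a ∈ t)).filter (fun a => p a = b)).card ≤
            (s.filter (fun a => p a = b)).card := by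
          apply Finset.card_le_card
          intro a ha
          rw [Finset.mem_filter] at ha ⊢
          exact ⟨(Finset.mem_filter.1 ha.1).1, ha.2⟩
        exact_mod_cast h2.trans (hc b)

section

variable {k : Type} [Field k] [NumberField k] {n : ℕ}

/-- `max 0 (log sup_j v(a_j))` -/
noncomputable def gI (a : Fin (n + 1) → k) (v : InfinitePlace k) : ℝ :=
  max 0 (Real.log (⨆ j, v (a j)))

/-- `max 0 (log sup_j v(a_j))` -/
noncomputable def gF (a : Fin (n + 1) → k) (v : FinitePlace k) : ℝ :=
  max 0 (Real.log (⨆ j, v (a j)))

theorem gI_nonneg (a : Fin (n + 1) → k) (v : InfinitePlace k) : 0 ≤ gI a v := le_max_left _ _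

theorem gF_nonneg (a : Fin (n + 1) → k) (v : FinitePlace k) : 0 ≤ gF a v := le_max_left _ _

theorem gF_support (a : Fin (n + 1) → k) : (Function.support (gF a)).Finite := by
  have h : Function.support (gF a) ⊆ ⋃ j : Fin (n + 1), ⋃ (_ : a j ≠ 0),
      Function.mulSupport (fun v : FinitePlace k => v (a j)) := by
    intro v hv
    obtain ⟨j, hj⟩ := exists_eq_ciSup_of_finite (f := fun j => v (a j))
    have h1 : 0 < Real.log (⨆ j, v (a j)) := by
      by_contra hcon
      apply hv
      exact max_eq_left (not_lt.1 hcon)
    rw [← hj] at h1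
    have h2 : a j ≠ 0 := by
      intro h0
      rw [h0] at h1
      simp at h1
    have h3 : v (a j) ≠ 1 := by
      intro h0
      simp only [h0, Real.log_one, lt_irrefl] at h1
    simp only [Set.mem_iUnion]
    exact ⟨j, h2, h3⟩
  refine Set.Finite.subset ?_ h
  apply Set.finite_iUnion
  intro j
  by_cases h0 : a j ≠ 0
  · have := FinitePlace.hasFiniteMulSupport h0
    refine Set.Finite.subset this ?_
    intro v hv
    simp only [Set.mem_iUnion] at hv
    exact hv.2
  · refine Set.Finite.subset Set.finite_empty ?_
    intro v hv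
    simp only [Set.mem_iUnion] at hv
    exact absurd hv.1 h0

end

theorem htHyp (h1 : PlBelow) (h2 : PlAbove) (h4 : PlPow) : HtHyp := by
  classical
  intro k _ _ n d a _
  refine ⟨∑ v : InfinitePlace k, (d : ℝ) * (2 * gI a v) +
    ∑ v ∈ (gF_support a).toFinset, (d : ℝ) * ((d : ℝ) * gF a v), ?_⟩
  intro L _ _ _ hd
  apply add_le_add
  · apply sum_le_of_fibres Finset.univ Finset.univ
      (fun w : InfinitePlace L => w.comap (algebraMap k L)) _ (fun v => 2 * gI a v) d
    · intro v
      exact mul_nonneg zero_le_two (gI_nonneg a v)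
    · intro v hv
      exact absurd (Finset.mem_univ v) hv
    · intro w _
      have hm : (w.mult : ℝ) ≤ 2 := by
        unfold InfinitePlace.mult
        split_ifs <;> norm_num
      have hm0 : (0 : ℝ) ≤ w.mult := Nat.cast_nonneg _
      have h3 : Real.log (⨆ j, w (algebraMap k L (a j))) ≤
          gI a (w.comap (algebraMap k L)) := le_max_right _ _
      calc (w.mult : ℝ) * Real.log (⨆ j, w (algebraMap k L (a j)))
          ≤ (w.mult : ℝ) * gI a (w.comap (algebraMap k L)) :=
            mul_le_mul_of_nonneg_left h3 hm0
        _ ≤ 2 * gI a (w.comap (algebraMap k L)) :=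
            mul_le_mul_of_nonneg_right hm (gI_nonneg a _)
    · intro v
      have h3 := (h2 k L).2 v
      rw [hd] at h3
      refine le_trans (le_of_eq ?_) h3
      exact (Fintype.card_subtype _).symm
  · by_cases hfin : (Function.support
        (fun w : FinitePlace L => Real.log (⨆ j, w (algebraMap k L (a j))))).Finite
    · rw [finsum_eq_sum_of_support_subset _ (s := hfin.toFinset) (by simp)]
      choose p hp _ using fun w : FinitePlace L => h1 k L w
      apply sum_le_of_fibres _ _ p _ (fun v => (d : ℝ) * gF a v) d
      · intro v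
        exact mul_nonneg (Nat.cast_nonneg _) (gF_nonneg a v)
      · intro v hv
        have h3 : gF a v = 0 := by
          by_contra hcon
          exact hv ((Set.Finite.mem_toFinset _).2 hcon)
        show (d : ℝ) * gF a v = 0
        rw [h3, mul_zero]
      · intro w _
        obtain ⟨⟨e, he1, he2, he⟩, _⟩ := h4 k L (p w) w (hp w)
        rw [hd] at he2
        obtain ⟨j, hj⟩ := exists_eq_ciSup_of_finite (f := fun j => w (algebraMap k L (a j)))
        show Real.log (⨆ j, w (algebraMap k L (a j))) ≤ (d : ℝ) * gF a (p w)
        rw [← hj]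
        simp only [he]
        rw [Real.log_pow]
        have h5 : Real.log ((p w) (a j)) ≤ gF a (p w) := by
          rcases (apply_nonneg (p w) (a j)).eq_or_lt with h0 | h0
          · rw [← h0, Real.log_zero]
            exact gF_nonneg a _
          · refine le_trans (Real.log_le_log h0 ?_) (le_max_right _ _)
            exact le_ciSup (f := fun j => (p w) (a j)) (Set.finite_range _).bddAbove j
        calc (e : ℝ) * Real.log ((p w) (a j)) ≤ (e : ℝ) * gF a (p w) :=
              mul_le_mul_of_nonneg_left h5 (Nat.cast_nonneg _)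
          _ ≤ (d : ℝ) * gF a (p w) := by
              apply mul_le_mul_of_nonneg_right _ (gF_nonneg a _)
              exact_mod_cast he2
      · intro v
        obtain ⟨hf1, hf2⟩ := (h2 k L).1 v
        rw [hd] at hf2
        refine le_trans ?_ hf2
        rw [← Set.ncard_coe_finset]
        apply Set.ncard_le_ncard _ hf1
        intro w hw
        rw [Finset.mem_coe, Finset.mem_filter] at hw
        rw [← hw.2]
        exact hp w
    · have h3 : ∑ᶠ w : FinitePlace L, Real.log (⨆ j, w (algebraMap k L (a j))) = 0 :=
        finsum_of_infinite_support hfin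
      rw [h3]
      apply Finset.sum_nonneg
      intro v _
      exact mul_nonneg (Nat.cast_nonneg _) (mul_nonneg (Nat.cast_nonneg _) (gF_nonneg a v))

end Pool.Agent.Helper97.Ru
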