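import Pool.Agent.Helper92.Ru.GoalsH

/-!
# The number of exponents (packet MonsCard of MP_d1d051_nt)
-/

set_option autoImplicit false

namespace Pool.Agent.Helper97.Ru

open Pool.Agent.Helper92.Ru

theorem card_piAntidiag_le {ι : Type} [Fintype ι] [DecidableEq ι] (n : ℕ) :
    (Finset.piAntidiag (Finset.univ : Finset ι) n).card ≤ 2 ^ (Fintype.card ι * n) := by
  have h1 : Finset.piAntidiag (Finset.univ : Finset ι) n ⊆
      Fintype.piFinset (fun _ : ι => Finset.range (n + 1)) := by
    intro f hf
    rw [Finset.mem_piAntidiag] at hf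
    rw [Fintype.mem_piFinset]
    intro i
    rw [Finset.mem_range]
    have h2 : f i ≤ ∑ j, f j := Finset.single_le_sum (fun _ _ => Nat.zero_le _) (Finset.mem_univ i)
    rw [hf.1] at h2
    omega
  calc (Finset.piAntidiag (Finset.univ : Finset ι) n).card
      ≤ (Fintype.piFinset (fun _ : ι => Finset.range (n + 1))).card := Finset.card_le_card h1
    _ = (n + 1) ^ Fintype.card ι := by
        rw [Fintype.card_piFinset]
        simp
    _ ≤ (2 ^ n) ^ Fintype.card ι := Nat.pow_le_pow_left Nat.lt_two_pow_self _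
    _ = 2 ^ (Fintype.card ι * n) := by rw [← pow_mul, mul_comm]

/-- H2. -/
theorem monsCard : MonsCard := by
  intro m ι _ _ _ r
  unfold mons
  constructor
  · refine Finset.card_pos.2 (Fintype.piFinset_nonempty.2 fun h => ?_)
    obtain ⟨i0⟩ := ‹Nonempty ι›
    refine ⟨Pi.single i0 (r h), ?_⟩
    rw [Finset.mem_piAntidiag]
    refine ⟨?_, fun i _ => Finset.mem_univ i⟩
    rw [Finset.sum_pi_single']
    simp
  · rw [Fintype.card_piFinset]
    calc ∏ h, (Finset.piAntidiag (Finset.univ : Finset ι) (r h)).card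
        ≤ ∏ h, 2 ^ (Fintype.card ι * r h) :=
          Finset.prod_le_prod' fun h _ => card_piAntidiag_le (r h)
      _ = 2 ^ (Fintype.card ι * ∑ h, r h) := by
          rw [Finset.prod_pow_eq_pow_sum, Finset.mul_sum]

end Pool.Agent.Helper97.Ru
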